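import Pool.Agent.Y520.AS.Stm

/-!
# The level set inequality in the plane with advection (after Pool.Agent.H947R3.Lev2)
-/

set_option autoImplicit false

open MeasureTheory Set Filter Topology Laplacian InnerProductSpace

namespace Pool.Agent.Y348.AS

open Pool.Agent.H947R3 Pool.Agent.Y520.AR Pool.Agent.Y520.AS

theorem t_LEV (hR : S_DRE) : S_LEV := by
  intro C hC0 hC Ω c B u g G t r hD h hG0 hg hgc hgG ht hr
  set θ : ℝ → ℝ := fun s => SS ((s - t) / r) with hθ
  set κ : ℝ → ℝ := fun s => bS ((s - t) / r) / r with hκ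
  have hθd : ∀ s, HasDerivAt θ (κ s) s := by
    intro s
    have h1 : HasDerivAt (fun s : ℝ => (s - t) / r) (1 / r) s :=
      ((hasDerivAt_id s).sub_const t).div_const r
    have h2 := (SS_deriv ((s - t) / r)).comp s h1
    have h3 : κ s = bS ((s - t) / r) * (1 / r) := by simp only [hκ]; ring
    rw [h3]
    exact h2
  have hκc : Continuous κ := by
    simp only [hκ]
    exact (bS_cont.comp (by fun_prop)).div_const r
  have hκnn : ∀ s, 0 ≤ κ s := fun s => div_nonneg (bS_nn _) hr.le
  have hκ0 : ∀ s, 0 < s → s < t → κ s = 0 := fun s _ hs => by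
    simp only [hκ]
    rw [bS_zero_left (div_nonpos_of_nonpos_of_nonneg (by linarith) hr.le), zero_div]
  have hθ0' : ∀ s, s ≤ t → θ s = 0 := fun s hs =>
    SS_zero (div_nonpos_of_nonpos_of_nonneg (by linarith) hr.le)
  have hθ0 : ∀ s, 0 < s → s < t → θ s = 0 := fun s _ hs => hθ0' s hs.le
  have hκc' : ContinuousOn κ (Ioo 0 1) := hκc.continuousOn
  have hθ1 : ContDiffOn ℝ 1 θ (Ioo 0 1) := by
    have : ContDiff ℝ 1 θ := by
      rw [contDiff_one_iff_deriv]
      refine ⟨fun s => (hθd s).differentiableAt, ?_⟩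
      have h1 : deriv θ = κ := funext fun s => (hθd s).deriv
      rw [h1]; exact hκc
    exact this.contDiffOn
  have hT1 := h.contDiff_cmp ht hθ0 hθ1
  have hT2 := h.hasCompactSupport_cmp ht hθ0
  have hgns := hC _ hT1 hT2
  -- quantities
  have hfc : ContinuousOn (fun x => ‖fderiv ℝ u x‖) Ω := by
    have : ContinuousOn (fderiv ℝ u) Ω :=
      (h.c2.continuousOn_fderiv_of_isOpen h.opn (by norm_num))
    exact this.norm
  have hpdc : ∀ i, ContinuousOn (pd u i) Ω := fun i => (contDiffOn_one_pd h.opn h.c2 i).continuousOn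
  have iX : IntegrableOn (fun x => κ (u x) * ‖fderiv ℝ u x‖) Ω :=
    h.integrableOn_comp_mul ht hκ0 hκc' hfc
  have iA : IntegrableOn (fun x => κ (u x) * ‖fderiv ℝ u x‖ ^ 2) Ω :=
    h.integrableOn_comp_mul ht hκ0 hκc' (hfc.pow 2)
  have iA' : IntegrableOn (fun x => κ (u x) * ∑ i, (pd u i x) ^ 2) Ω :=
    h.integrableOn_comp_mul ht hκ0 hκc' (continuousOn_finsetSum _ fun i _ => (hpdc i).pow 2)
  have iB : IntegrableOn (fun x => κ (u x)) Ω := by
    simpa using h.integrableOn_comp_mul ht hκ0 hκc' (G := fun _ => 1) continuousOn_const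
  have hθc' : ContinuousOn θ (Ioo 0 1) := hθ1.continuousOn
  have iT : IntegrableOn (fun x => θ (u x) ^ 2) Ω := by
    simpa using h.integrableOn_comp_mul (κ := fun s => θ s ^ 2) ht
      (fun s h1 h2 => by simp [hθ0 s h1 h2]) (hθc'.pow 2) (G := fun _ => 1) continuousOn_const
  have iG : IntegrableOn (fun x => g x * θ (u x)) Ω := by
    have := h.integrableOn_comp_mul (κ := θ) ht hθ0 hθc' (G := g) hgc
    exact this.congr_fun (fun x _ => mul_comm _ _) h.opn.measurableSet
  set X : ℝ := ∫ x in Ω, κ (u x) * ‖fderiv ℝ u x‖ with hX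
  set A : ℝ := ∫ x in Ω, κ (u x) * ‖fderiv ℝ u x‖ ^ 2 with hA
  set Bk : ℝ := ∫ x in Ω, κ (u x) with hBk
  -- the norm of the derivative of the truncation
  have e1 : ∫ x, ‖fderiv ℝ (cmp Ω θ u) x‖ = X := by
    rw [hX, ← integral_indicator h.opn.measurableSet]
    congr 1
    funext x
    by_cases hx : x ∈ Ω
    · rw [indicator_of_mem hx, (cmp_eventuallyEq h.opn hx).fderiv_eq]
      have h1 : DifferentiableAt ℝ u x :=
        (h.c2.contDiffAt (h.opn.mem_nhds hx)).differentiableAt (by norm_num)
      have h2 : HasFDerivAt (fun y => θ (u y)) (κ (u x) • fderiv ℝ u x) x :=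
        (hθd (u x)).comp_hasFDerivAt x h1.hasFDerivAt
      rw [h2.fderiv, norm_smul, Real.norm_of_nonneg (hκnn _)]
    · rw [indicator_of_notMem hx,
        fderiv_of_notMem_tsupport _ (fun hh => hx (h.tsupport_cmp_subset ht hθ0 hh))]
      simp
  have e2 : ∫ x, (cmp Ω θ u x) ^ 2 = ∫ x in Ω, θ (u x) ^ 2 := by
    rw [← integral_indicator h.opn.measurableSet]
    congr 1
    funext x
    by_cases hx : x ∈ Ω
    · simp [Pool.Agent.H947R3.cmp, hx]
    · simp [Pool.Agent.H947R3.cmp, hx]
  rw [e1, e2] at hgns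
  -- lower bound on the left
  have low : volume.real (LL Ω u (t + r)) ≤ ∫ x in Ω, θ (u x) ^ 2 := by
    have h1 : volume.real (LL Ω u (t + r)) = ∫ x in Ω, (LL Ω u (t + r)).indicator (fun _ => (1 : ℝ)) x := by
      rw [setIntegral_indicator (h.measurable_LL _), setIntegral_const, smul_eq_mul, mul_one,
        inter_eq_self_of_subset_right (LL_subset _ _ _)]
    rw [h1]
    apply setIntegral_mono_on _ iT h.opn.measurableSet
    · intro x hx
      by_cases hx2 : x ∈ LL Ω u (t + r)
      · rw [indicator_of_mem hx2]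
        have : θ (u x) = 1 := by
          apply SS_one
          rw [le_div_iff₀ hr]
          linarith [hx2.2]
        rw [this]; norm_num
      · rw [indicator_of_notMem hx2]; positivity
    · exact (integrableOn_const h.volume_lt_top.ne).indicator (h.measurable_LL _)
  -- A ≤ (G + 2 B) a(t)
  have hθcont : Continuous θ := continuous_iff_continuousAt.2 fun s => (hθd s).continuousAt
  let Th : ℝ → ℝ := fun s => ∫ y in (0 : ℝ)..s, θ y
  have hThd : ∀ s, HasDerivAt Th (θ s) s := fun s =>
    intervalIntegral.integral_hasDerivAt_right (hθcont.intervalIntegrable _ _)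
      hθcont.stronglyMeasurable.stronglyMeasurableAtFilter hθcont.continuousAt
  have hTh0 : ∀ s, 0 < s → s ≤ t → Th s = 0 := by
    intro s hs0 hs
    have h1 : Th s = ∫ _ in (0 : ℝ)..s, (0 : ℝ) := by
      refine intervalIntegral.integral_congr fun y hy => ?_
      rw [uIcc_of_le hs0.le] at hy
      exact hθ0' y (hy.2.trans hs)
    rw [h1, intervalIntegral.integral_zero]
  have hThnn : ∀ s, 0 < s → 0 ≤ Th s := fun s hs =>
    intervalIntegral.integral_nonneg hs.le fun y _ => SS_nn _
  have hTh1 : ∀ s, 0 < s → s < 1 → Th s ≤ 1 := by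
    intro s hs hs1
    have h1 : Th s ≤ ∫ _ in (0 : ℝ)..s, (1 : ℝ) :=
      intervalIntegral.integral_mono_on hs.le (hθcont.intervalIntegrable _ _)
        (continuous_const.intervalIntegrable _ _) fun y _ => SS_le _
    rw [intervalIntegral.integral_const, smul_eq_mul] at h1
    linarith
  obtain ⟨iTh, iD, hdr⟩ := hR 2 Ω c B t u Th θ hD h ht (fun s h1 h2 => hTh0 s h1 h2.le)
    (fun s _ => hThd s) hθc' (fun s hs => hThnn s hs.1)
  have hThle : ∫ x in Ω, Th (u x) ≤ volume.real (LL Ω u t) := by
    have h3 : volume.real (LL Ω u t) = ∫ x in Ω, (LL Ω u t).indicator (fun _ => (1 : ℝ)) x := by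
      rw [setIntegral_indicator (h.measurable_LL _), setIntegral_const, smul_eq_mul, mul_one,
        inter_eq_self_of_subset_right (LL_subset _ _ _)]
    rw [h3]
    apply setIntegral_mono_on iTh _ h.opn.measurableSet
    · intro x hx
      by_cases hx2 : x ∈ LL Ω u t
      · rw [indicator_of_mem hx2]
        exact hTh1 _ (h.pos x hx) (h.lt x hx)
      · rw [indicator_of_notMem hx2]
        have h4 : u x ≤ t := by
          by_contra hcon
          exact hx2 ⟨hx, not_le.1 hcon⟩
        rw [hTh0 _ (h.pos x hx) h4]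
    · exact (integrableOn_const h.volume_lt_top.ne).indicator (h.measurable_LL _)
  have hG' : (0 : ℝ) ≤ G + 2 * B := by linarith [hD.nonneg]
  set G' : ℝ := G + 2 * B with hG'def
  have hG'0 : 0 ≤ G' := hG'
  have hAle : A ≤ G' * volume.real (LL Ω u t) := by
    have h1 : A ≤ ∫ x in Ω, κ (u x) * ∑ i, (pd u i x) ^ 2 := by
      apply setIntegral_mono_on iA iA' h.opn.measurableSet
      intro x _
      exact mul_le_mul_of_nonneg_left (norm_sq_le_sum _) (hκnn _)
    have en := h.energy ht hθ0 (fun s _ => hθd s) hκc'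
    rw [en] at h1
    have h2 : ∫ x in Ω, - Δ u x * θ (u x) =
        (∫ x in Ω, g x * θ (u x)) - ∫ x in Ω, fderiv ℝ u x (c x) * θ (u x) := by
      rw [← integral_sub iG iD]
      refine setIntegral_congr_fun h.opn.measurableSet fun x hx => ?_
      have h3 := hg x hx
      show - Δ u x * θ (u x) = g x * θ (u x) - fderiv ℝ u x (c x) * θ (u x)
      rw [← h3]
      ring
    rw [h2] at h1
    have h3 : G * volume.real (LL Ω u t) = ∫ x in Ω, (LL Ω u t).indicator (fun _ => G) x := by
      rw [setIntegral_indicator (h.measurable_LL _), setIntegral_const, smul_eq_mul,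
        inter_eq_self_of_subset_right (LL_subset _ _ _)]
      ring
    have h7 : ∫ x in Ω, g x * θ (u x) ≤ G * volume.real (LL Ω u t) := by
      rw [h3]
      apply setIntegral_mono_on iG _ h.opn.measurableSet
      · intro x hx
        by_cases hx2 : x ∈ LL Ω u t
        · rw [indicator_of_mem hx2]
          have h4 := hgG x hx
          have h5 := SS_nn ((u x - t) / r)
          have h6 := SS_le ((u x - t) / r)
          calc g x * θ (u x) ≤ G * θ (u x) := mul_le_mul_of_nonneg_right h4 h5
            _ ≤ G * 1 := mul_le_mul_of_nonneg_left h6 hG0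
            _ = G := mul_one G
        · rw [indicator_of_notMem hx2]
          have h4 : u x ≤ t := by
            by_contra hcon
            exact hx2 ⟨hx, not_le.1 hcon⟩
          rw [hθ0' _ h4, mul_zero]
      · exact (integrableOn_const h.volume_lt_top.ne).indicator (h.measurable_LL _)
    have h8 : ((2 : ℕ) : ℝ) * B * ∫ x in Ω, Th (u x) ≤ 2 * B * volume.real (LL Ω u t) := by
      have h9 : ((2 : ℕ) : ℝ) = 2 := by norm_num
      rw [h9]
      exact mul_le_mul_of_nonneg_left hThle (by linarith [hD.nonneg])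
    have h10 : G' * volume.real (LL Ω u t) =
        G * volume.real (LL Ω u t) + 2 * B * volume.real (LL Ω u t) := by
      rw [hG'def]; ring
    rw [h10]
    linarith
  -- B ≤ (3/2)/r (a(t) - a(t+r))
  have hBle : Bk ≤ (3 / 2 / r) * (volume.real (LL Ω u t) - volume.real (LL Ω u (t + r))) := by
    have hsub : LL Ω u (t + r) ⊆ LL Ω u t := LL_anti _ _ (by linarith)
    have hd : volume.real (LL Ω u t) - volume.real (LL Ω u (t + r)) =
        volume.real (LL Ω u t \ LL Ω u (t + r)) := by
      rw [measureReal_sdiff (μ := volume) hsub (h.measurable_LL (t + r)) (h.LL_ne_top _)]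
    rw [hd]
    have hm : MeasurableSet (LL Ω u t \ LL Ω u (t + r)) :=
      (h.measurable_LL _).diff (h.measurable_LL _)
    have h3 : (3 / 2 / r) * volume.real (LL Ω u t \ LL Ω u (t + r)) =
        ∫ x in Ω, (LL Ω u t \ LL Ω u (t + r)).indicator (fun _ => 3 / 2 / r) x := by
      rw [setIntegral_indicator hm, setIntegral_const, smul_eq_mul,
        inter_eq_self_of_subset_right (sdiff_subset.trans (LL_subset _ _ _))]
      ring
    rw [h3]
    apply setIntegral_mono_on iB _ h.opn.measurableSet
    · intro x hx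
      by_cases hx2 : x ∈ LL Ω u t \ LL Ω u (t + r)
      · rw [indicator_of_mem hx2]
        exact div_le_div_of_nonneg_right (bS_le _) hr.le
      · rw [indicator_of_notMem hx2]
        have h4 : u x ≤ t ∨ t + r < u x := by
          by_contra hcon
          push Not at hcon
          exact hx2 ⟨⟨hx, hcon.1⟩, fun hh => absurd hh.2 (not_lt.2 hcon.2)⟩
        rcases h4 with h4 | h4
        · simp only [hκ]
          rw [bS_zero_left (div_nonpos_of_nonpos_of_nonneg (by linarith) hr.le), zero_div]
        · simp only [hκ]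
          rw [bS_zero_right (by rw [le_div_iff₀ hr]; linarith), zero_div]
    · exact (integrableOn_const h.volume_lt_top.ne).indicator hm
  -- Cauchy–Schwarz through the discriminant
  have hA0 : 0 ≤ A := setIntegral_nonneg h.opn.measurableSet fun x _ =>
    mul_nonneg (hκnn _) (by positivity)
  have hB0 : 0 ≤ Bk := setIntegral_nonneg h.opn.measurableSet fun x _ => hκnn _
  have cs : X ^ 2 ≤ A * Bk := by
    have hq : ∀ s : ℝ, 0 ≤ A * (s * s) + (-(2 * X)) * s + Bk := by
      intro s
      have h1 : 0 ≤ ∫ x in Ω, κ (u x) * (s * ‖fderiv ℝ u x‖ - 1) ^ 2 :=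
        setIntegral_nonneg h.opn.measurableSet fun x _ => mul_nonneg (hκnn _) (sq_nonneg _)
      have h2 : ∫ x in Ω, κ (u x) * (s * ‖fderiv ℝ u x‖ - 1) ^ 2 =
          ∫ x in Ω, ((s * s) * (κ (u x) * ‖fderiv ℝ u x‖ ^ 2) - (2 * s) * (κ (u x) * ‖fderiv ℝ u x‖)
            + κ (u x)) := by
        apply setIntegral_congr_fun h.opn.measurableSet
        intro x _
        simp only []
        ring
      have h3 := integral_add ((iA.const_mul (s * s)).sub (iX.const_mul (2 * s))) iB
      have h4 := integral_sub (iA.const_mul (s * s)) (iX.const_mul (2 * s))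
      rw [integral_const_mul, integral_const_mul] at h4
      have h5 : ∫ x in Ω, ((s * s) * (κ (u x) * ‖fderiv ℝ u x‖ ^ 2) - (2 * s) * (κ (u x) * ‖fderiv ℝ u x‖)
            + κ (u x)) = (s * s) * A - 2 * s * X + Bk := by
        rw [hA, hX, hBk, ← h4]
        exact h3
      rw [h2, h5] at h1
      linarith
    have := discrim_le_zero hq
    unfold discrim at this
    nlinarith
  -- conclusion
  set a0 := volume.real (LL Ω u t)
  set a1 := volume.real (LL Ω u (t + r))
  have ha0 : 0 ≤ a0 := measureReal_nonneg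
  have f1 : a1 ≤ C * (A * Bk) := low.trans (hgns.trans (mul_le_mul_of_nonneg_left cs hC0))
  have f2 : A * Bk ≤ (G' * a0) * ((3 / 2 / r) * (a0 - a1)) :=
    mul_le_mul hAle hBle hB0 (mul_nonneg hG'0 ha0)
  have f3 : a1 ≤ C * ((G' * a0) * ((3 / 2 / r) * (a0 - a1))) :=
    f1.trans (mul_le_mul_of_nonneg_left f2 hC0)
  have f4 : r * a1 ≤ r * (C * ((G' * a0) * ((3 / 2 / r) * (a0 - a1)))) :=
    mul_le_mul_of_nonneg_left f3 hr.le
  have f5 : r * (C * ((G' * a0) * ((3 / 2 / r) * (a0 - a1)))) = (3 / 2 * C * G') * a0 * (a0 - a1) := by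
    field_simp
  linarith

end Pool.Agent.Y348.AS
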